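import Pool.Agent.Helper48.PCP.CTR

/-!
# PCP(4), module CPR: the productions are primitive recursive
-/

namespace PCP4

section cpr
variable {α : Type*} [Primcodable α]

theorem cpr_dlt {q r : α → ℕ} (k Q0 q0 : ℕ) (tab : List (ℕ × Bool × Bool × ℕ))
    (hq : Primrec q) (hr : Primrec r) : Primrec fun a => dlt k Q0 q0 tab (q a) (r a) := by
  unfold dlt
  have h1 : Primrec fun a => tab.getD (q a * k + r a) (0, true, false, 0) :=
    (Primrec.list_getD (0, true, false, 0)).comp (Primrec.const tab)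
      (ctr_add (ctr_mul hq (Primrec.const k)) hr)
  have h2 : Primrec fun a => (if q a = Q0 then q0 else q a - 1 : ℕ) :=
    Primrec.ite (Primrec.eq.comp hq (Primrec.const Q0)) (Primrec.const q0)
      (ctr_sub hq (Primrec.const 1))
  have h3 : Primrec fun a => (q a - Q0) % 2 :=
    ctr_mod (ctr_sub hq (Primrec.const Q0)) (Primrec.const 2)
  exact Primrec.ite (Primrec.nat_lt.comp hq (Primrec.const Q0)) h1
    (Primrec.pair h2 (Primrec.pair (Primrec.const true) (Primrec.pair (Primrec.const false) h3)))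

theorem cpr_sT {q r : α → ℕ} (k ty : ℕ) (hq : Primrec q) (hr : Primrec r) :
    Primrec fun a => sT k ty (q a) (r a) := by
  unfold sT
  exact ctr_add (ctr_add (Primrec.const (3 + ty * k)) (ctr_mul (Primrec.const (2 + 4 * k)) hq)) hr

theorem cpr_sh {q : α → ℕ} (k : ℕ) (hq : Primrec q) : Primrec fun a => sh k (q a) := by
  unfold sh
  exact ctr_add (Primrec.const 1) (ctr_mul (Primrec.const (2 + 4 * k)) hq)

theorem cpr_sb {q : α → ℕ} (k : ℕ) (hq : Primrec q) : Primrec fun a => sb k (q a) := by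
  unfold sb
  exact ctr_add (Primrec.const 2) (ctr_mul (Primrec.const (2 + 4 * k)) hq)

theorem cpr_blk {q : α → ℕ} (k ty : ℕ) (hq : Primrec q) :
    Primrec fun a => blk k ty (q a) := by
  unfold blk
  refine Primrec.list_flatMap (Primrec.const (List.range k)) ?_
  have h1 : Primrec fun x : α × ℕ => sT k ty (q x.1) (k - 1 - x.2) :=
    cpr_sT k ty (hq.comp Primrec.fst) (ctr_sub (Primrec.const (k - 1)) Primrec.snd)
  have h2 : Primrec fun x : α × ℕ =>
      List.replicate k 0 ++ [sT k ty (q x.1) (k - 1 - x.2)] :=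
    ctr_app (Primrec.const (List.replicate k 0)) (ctr_cons h1 (Primrec.const []))
  exact h2.to₂

theorem cpr_cps {n : α → ℕ} {w : α → List ℕ} (hn : Primrec n) (hw : Primrec w) :
    Primrec fun a => cps (n a) (w a) := by
  unfold cps
  exact Primrec.list_flatMap (Primrec.list_range.comp hn) (hw.comp Primrec.fst).to₂

theorem cpr_bool {b : α → Bool} {f g : α → ℕ} (hb : Primrec b) (hf : Primrec f)
    (hg : Primrec g) : Primrec fun a => (if b a then f a else g a : ℕ) :=
  Primrec.ite (Primrec.eq.comp hb (Primrec.const true)) hf hg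

end cpr

theorem st_CPR : ST_CPR := by
  intro k Q0 q0 qh tab
  have hτ : Primrec fun τ : ℕ => τ := Primrec.id
  have hq : Primrec fun τ : ℕ => (τ - 1) / (2 + 4 * k) :=
    ctr_div (ctr_sub hτ (Primrec.const 1)) (Primrec.const _)
  have hj : Primrec fun τ : ℕ => (τ - 1) % (2 + 4 * k) :=
    ctr_mod (ctr_sub hτ (Primrec.const 1)) (Primrec.const _)
  have hj2 : Primrec fun τ : ℕ => (τ - 1) % (2 + 4 * k) - 2 := ctr_sub hj (Primrec.const 2)
  have hr : Primrec fun τ : ℕ => ((τ - 1) % (2 + 4 * k) - 2) % k :=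
    ctr_mod hj2 (Primrec.const k)
  have hjk : Primrec fun τ : ℕ => ((τ - 1) % (2 + 4 * k) - 2) / k :=
    ctr_div hj2 (Primrec.const k)
  have hd : Primrec fun τ : ℕ => dlt k Q0 q0 tab ((τ - 1) / (2 + 4 * k))
      (((τ - 1) % (2 + 4 * k) - 2) % k) := cpr_dlt k Q0 q0 tab hq hr
  have hd1 := Primrec.fst.comp hd
  have hd2 := Primrec.fst.comp (Primrec.snd.comp hd)
  have hd3 := Primrec.fst.comp (Primrec.snd.comp (Primrec.snd.comp hd))
  have hd4 := Primrec.snd.comp (Primrec.snd.comp (Primrec.snd.comp hd))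
  have c0 : PrimrecPred fun τ : ℕ => τ = 0 := Primrec.eq.comp hτ (Primrec.const 0)
  have cj0 : PrimrecPred fun τ : ℕ => (τ - 1) % (2 + 4 * k) = 0 :=
    Primrec.eq.comp hj (Primrec.const 0)
  have cj1 : PrimrecPred fun τ : ℕ => (τ - 1) % (2 + 4 * k) = 1 :=
    Primrec.eq.comp hj (Primrec.const 1)
  have cqh : PrimrecPred fun τ : ℕ => (τ - 1) / (2 + 4 * k) = qh :=
    Primrec.eq.comp hq (Primrec.const qh)
  have ck0 : PrimrecPred fun τ : ℕ => ((τ - 1) % (2 + 4 * k) - 2) / k = 0 :=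
    Primrec.eq.comp hjk (Primrec.const 0)
  have ck1 : PrimrecPred fun τ : ℕ => ((τ - 1) % (2 + 4 * k) - 2) / k = 1 :=
    Primrec.eq.comp hjk (Primrec.const 1)
  have ck2 : PrimrecPred fun τ : ℕ => ((τ - 1) % (2 + 4 * k) - 2) / k = 2 :=
    Primrec.eq.comp hjk (Primrec.const 2)
  have e1 := Primrec.ite cqh (Primrec.const (none : Option (List ℕ)))
    (Primrec.option_some.comp (cpr_blk k 2 hq))
  have e2 := Primrec.option_some.comp (cpr_blk k 3 hq)
  have e3 := Primrec.option_some.comp (ctr_app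
    (ctr_repl (ctr_sub (ctr_mul (Primrec.const (k + 1)) (ctr_sub (Primrec.const k) hr))
      (Primrec.const 1)) (Primrec.const 0))
    (ctr_cons (cpr_sh k hd1) (ctr_repl (ctr_mul (Primrec.const (k + 1)) hd4) (cpr_sb k hd1))))
  have e4 := Primrec.option_some.comp
    (ctr_repl (ctr_mul (Primrec.const (k + 1)) (cpr_bool hd3 (Primrec.const k) (Primrec.const 1)))
      (cpr_sb k hd1))
  have e5 := Primrec.option_some.comp (ctr_app (cpr_blk k 0 hd1)
    (cpr_cps (cpr_bool hd2 hr (Primrec.const 0)) (cpr_blk k 1 hd1)))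
  have e6 := Primrec.option_some.comp
    (cpr_cps (cpr_bool hd2 (Primrec.const k) (Primrec.const 1)) (cpr_blk k 1 hd1))
  exact Primrec.ite c0 (Primrec.const _) (Primrec.ite cj0 e1 (Primrec.ite cj1 e2
    (Primrec.ite ck0 e3 (Primrec.ite ck1 e4 (Primrec.ite ck2 e5 e6)))))

end PCP4
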