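import Pool.Agent.Helper85.PCP.Stmts

/-!
# PCP(4), module CTR: the tracks are primitive recursive
-/

namespace PCP4

section ctr
variable {α β σ : Type*} [Primcodable α] [Primcodable β] [Primcodable σ]

theorem ctr_add {f g : α → ℕ} (hf : Primrec f) (hg : Primrec g) : Primrec fun a => f a + g a :=
  Primrec.nat_add.comp hf hg

theorem ctr_mul {f g : α → ℕ} (hf : Primrec f) (hg : Primrec g) : Primrec fun a => f a * g a :=
  Primrec.nat_mul.comp hf hg

theorem ctr_sub {f g : α → ℕ} (hf : Primrec f) (hg : Primrec g) : Primrec fun a => f a - g a :=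
  Primrec.nat_sub.comp hf hg

theorem ctr_mod {f g : α → ℕ} (hf : Primrec f) (hg : Primrec g) : Primrec fun a => f a % g a :=
  Primrec.nat_mod.comp hf hg

theorem ctr_div {f g : α → ℕ} (hf : Primrec f) (hg : Primrec g) : Primrec fun a => f a / g a :=
  Primrec.nat_div.comp hf hg

theorem ctr_min {f g : α → ℕ} (hf : Primrec f) (hg : Primrec g) :
    Primrec fun a => min (f a) (g a) :=
  Primrec.nat_min.comp hf hg

theorem ctr_app {f g : α → List β} (hf : Primrec f) (hg : Primrec g) :
    Primrec fun a => f a ++ g a :=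
  Primrec.list_append.comp hf hg

theorem ctr_cons {f : α → β} {g : α → List β} (hf : Primrec f) (hg : Primrec g) :
    Primrec fun a => f a :: g a :=
  Primrec.list_cons.comp hf hg

theorem ctr_repl {f : α → ℕ} {g : α → β} (hf : Primrec f) (hg : Primrec g) :
    Primrec fun a => List.replicate (f a) (g a) := by
  have h : Primrec fun a => (List.range (f a)).map (fun _ => g a) :=
    Primrec.list_map (Primrec.list_range.comp hf) (hg.comp Primrec.fst).to₂
  refine h.of_eq fun a => ?_
  simp [List.map_const']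

theorem ctr_take {f : α → ℕ} {g : α → List β} (hf : Primrec f) (hg : Primrec g) :
    Primrec fun a => (g a).take (f a) :=
  Primrec.list_take.comp hf hg

theorem ctr_drop {f : α → ℕ} {g : α → List β} (hf : Primrec f) (hg : Primrec g) :
    Primrec fun a => (g a).drop (f a) :=
  Primrec.list_drop.comp hf hg

theorem ctr_len {g : α → List β} (hg : Primrec g) : Primrec fun a => (g a).length :=
  Primrec.list_length.comp hg

theorem ctr_tail {g : α → List β} (hg : Primrec g) : Primrec fun a => (g a).tail :=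
  Primrec.list_tail.comp hg

theorem ctr_dropLast {g : α → List β} (hg : Primrec g) : Primrec fun a => (g a).dropLast := by
  refine (ctr_take (ctr_sub (ctr_len hg) (Primrec.const 1)) hg).of_eq fun a => ?_
  rw [List.dropLast_eq_take]

theorem ctr_nu {A : α → ℕ} (hA : Primrec A) : Primrec fun a => nu (A a) :=
  ctr_add (ctr_mul (Primrec.const 4) hA) (Primrec.const 2)

theorem ctr_xx {A t : α → ℕ} (hA : Primrec A) (ht : Primrec t) :
    Primrec fun a => xx (A a) (t a) :=
  ctr_add (ctr_mul (Primrec.const 2) hA)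
    (ctr_mul (Primrec.const 2) (ctr_add ht (Primrec.const 1)))

theorem ctr_lt1 {A : α → ℕ} {o : α → Option ℕ} (hA : Primrec A) (ho : Primrec o) :
    Primrec fun a => lt1 (A a) (o a) := by
  have hx : Primrec fun p : α × ℕ => xx (A p.1) p.2 :=
    ctr_xx (hA.comp Primrec.fst) Primrec.snd
  have h2 : Primrec₂ fun (a : α) (t : ℕ) =>
      List.replicate (xx (A a) t) false ++ true :: List.replicate (nu (A a) - xx (A a) t) false :=
    (ctr_app (ctr_repl hx (Primrec.const false))
      (ctr_cons (Primrec.const true)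
        (ctr_repl (ctr_sub (ctr_nu (hA.comp Primrec.fst)) hx) (Primrec.const false)))).to₂
  refine (Primrec.option_casesOn ho (Primrec.const [true]) h2).of_eq fun a => ?_
  cases o a <;> rfl

theorem ctr_letters {A : α → ℕ} {W : α → List (Option ℕ)} (hA : Primrec A) (hW : Primrec W) :
    Primrec fun a => letters (A a) (W a) := by
  unfold letters
  exact Primrec.list_flatMap hW (ctr_lt1 (hA.comp Primrec.fst) Primrec.snd).to₂

theorem ctr_win {A w : α → ℕ} {G : α → List ℕ} (hA : Primrec A) (hw : Primrec w)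
    (hG : Primrec G) : Primrec fun a => win (A a) (w a) (G a) := by
  unfold win
  exact ctr_app (Primrec.list_map hG (Primrec.option_some.comp Primrec.snd).to₂)
    (ctr_repl (ctr_sub hw (ctr_mul (ctr_add (ctr_nu hA) (Primrec.const 1)) (ctr_len hG)))
      (Primrec.const none))

theorem ctr_off {r n j : α → ℕ} (V : ℕ) (hr : Primrec r) (hn : Primrec n) (hj : Primrec j) :
    Primrec fun a => off V (r a) (n a) (j a) := by
  unfold off
  exact ctr_min (ctr_mul hj (Primrec.const (V - 1))) (ctr_sub hn (ctr_sub hr hj))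

theorem ctr_wins {A w : α → ℕ} {p : α → List ℕ} (V r : ℕ) (hA : Primrec A) (hw : Primrec w)
    (hp : Primrec p) : Primrec fun a => wins V (A a) (w a) r (p a) := by
  unfold wins
  refine Primrec.list_flatMap (Primrec.const (List.range r)) ?_
  have hp' : Primrec fun x : α × ℕ => p x.1 := hp.comp Primrec.fst
  have h1 : Primrec fun x : α × ℕ => off V r (p x.1).length x.2 :=
    ctr_off V (Primrec.const r) (ctr_len hp') Primrec.snd
  have h2 : Primrec fun x : α × ℕ => off V r (p x.1).length (x.2 + 1) :=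
    ctr_off V (Primrec.const r) (ctr_len hp') (ctr_add Primrec.snd (Primrec.const 1))
  exact (ctr_win (hA.comp Primrec.fst) (hw.comp Primrec.fst)
    (ctr_take (ctr_sub h2 h1) (ctr_drop h1 hp'))).to₂

theorem ctr_wact {A : α → ℕ} {p : α → List ℕ} (V s : ℕ) (hA : Primrec A) (hp : Primrec p) :
    Primrec fun a => Wact V s (A a) (p a) := by
  unfold Wact
  exact ctr_app (ctr_wins V s hA
    (ctr_sub (ctr_mul (Primrec.const V) (ctr_nu hA)) (Primrec.const 1)) hp)
    (Primrec.const [none, none])

theorem ctr_winit {A b : α → ℕ} {D : α → List ℕ} (V s a : ℕ) (hA : Primrec A) (hb : Primrec b)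
    (hD : Primrec D) : Primrec fun x => Winit V s (A x) (D x) a (b x) := by
  unfold Winit
  have hw : Primrec fun x => V * nu (A x) - 1 :=
    ctr_sub (ctr_mul (Primrec.const V) (ctr_nu hA)) (Primrec.const 1)
  refine ctr_app (ctr_wins V (s - 2) hA hw hD)
    (ctr_cons (Primrec.const (some a)) (ctr_app (ctr_repl ?_ (Primrec.const none))
      (ctr_cons (Primrec.option_some.comp hb) (Primrec.const []))))
  exact ctr_sub (ctr_add hw (ctr_mul (Primrec.const 2) hA))
    (ctr_mul (Primrec.const 2) (ctr_add (ctr_nu hA) (Primrec.const 1)))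

theorem ctr_trk {A b φ : α → ℕ} {D : α → List ℕ} {P : ℕ → Option (List ℕ)} (V s a : ℕ)
    (hP : Primrec P) (hA : Primrec A) (hb : Primrec b) (hD : Primrec D) (hφ : Primrec φ) :
    Primrec fun x => trk V s (A x) P (D x) a (b x) (φ x) := by
  have hm : Primrec fun x => V * nu (A x) := ctr_mul (Primrec.const V) (ctr_nu hA)
  have hL : Primrec fun x => 1 + (V * nu (A x) - 1) * s :=
    ctr_add (Primrec.const 1) (ctr_mul (ctr_sub hm (Primrec.const 1)) (Primrec.const s))
  have h2A : Primrec fun x => 2 * A x := ctr_mul (Primrec.const 2) hA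
  have hall : Primrec fun x => List.replicate (1 + (V * nu (A x) - 1) * s) true :=
    ctr_repl hL (Primrec.const true)
  have h1 : Primrec fun x => List.replicate (1 + (V * nu (A x) - 1) * s) false :=
    ctr_repl hL (Primrec.const false)
  have h0 : Primrec fun x => true :: (List.replicate (V * nu (A x) - 2 * A x) false ++
      (letters (A x) (Winit V s (A x) (D x) a (b x))).dropLast) :=
    ctr_cons (Primrec.const true) (ctr_app (ctr_repl (ctr_sub hm h2A) (Primrec.const false))
      (ctr_dropLast (ctr_letters hA (ctr_winit V s a hA hb hD))))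
  have hPP : Primrec fun x => P ((V * nu (A x) - φ x) / 2 - 1) :=
    hP.comp (ctr_sub (ctr_div (ctr_sub hm hφ) (Primrec.const 2)) (Primrec.const 1))
  have hsome : Primrec₂ fun (x : α) (p : List ℕ) => (letters (A x) (Wact V s (A x) p)).tail :=
    (ctr_tail (ctr_letters (hA.comp Primrec.fst)
      (ctr_wact V s (hA.comp Primrec.fst) Primrec.snd))).to₂
  have h3 : Primrec fun x => (Option.casesOn (P ((V * nu (A x) - φ x) / 2 - 1))
      (List.replicate (1 + (V * nu (A x) - 1) * s) true)
      (fun p => (letters (A x) (Wact V s (A x) p)).tail) : List Bool) :=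
    Primrec.option_casesOn hPP hall hsome
  have hc1 : PrimrecPred fun x => φ x % 2 = 1 :=
    Primrec.eq.comp (ctr_mod hφ (Primrec.const 2)) (Primrec.const 1)
  have hc2 : PrimrecPred fun x => φ x = 0 := Primrec.eq.comp hφ (Primrec.const 0)
  have hc3 : PrimrecPred fun x => V * nu (A x) - φ x ≤ 2 * A x :=
    Primrec.nat_le.comp (ctr_sub hm hφ) h2A
  refine (Primrec.ite hc1 h1 (Primrec.ite hc2 h0 (Primrec.ite hc3 h3 hall))).of_eq fun x => ?_
  unfold trk
  split_ifs
  · rfl
  · rfl
  · cases P ((V * nu (A x) - φ x) / 2 - 1) <;> rfl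
  · rfl

end ctr

theorem ctr_nA (k Q0 : ℕ) : Primrec fun n => nA k Q0 n := by
  unfold nA
  exact ctr_add (Primrec.const 1) (ctr_mul (Primrec.const (2 + 4 * k))
    (ctr_add (ctr_add (Primrec.const Q0) (ctr_mul (Primrec.const 2) Primrec.id))
      (Primrec.const 1)))

theorem ctr_sT (k Q0 ty r : ℕ) : Primrec fun n => sT k ty (Q0 + 2 * n) r := by
  unfold sT
  exact ctr_add (ctr_add (Primrec.const (3 + ty * k)) (ctr_mul (Primrec.const (2 + 4 * k))
    (ctr_add (Primrec.const Q0) (ctr_mul (Primrec.const 2) Primrec.id)))) (Primrec.const r)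

theorem ctr_D1 (k Q0 : ℕ) : Primrec fun n => D1 k Q0 n := by
  have hq : Primrec fun n : ℕ => Q0 + 2 * n :=
    ctr_add (Primrec.const Q0) (ctr_mul (Primrec.const 2) Primrec.id)
  have hsh : Primrec fun n : ℕ => sh k (Q0 + 2 * n) :=
    ctr_add (Primrec.const 1) (ctr_mul (Primrec.const (2 + 4 * k)) hq)
  have hblk : Primrec fun n : ℕ => blk k 0 (Q0 + 2 * n) := by
    unfold blk
    refine Primrec.list_flatMap (Primrec.const (List.range k)) ?_
    have h1 : Primrec fun x : ℕ × ℕ => sT k 0 (Q0 + 2 * x.1) (k - 1 - x.2) := by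
      unfold sT
      exact ctr_add (ctr_add (Primrec.const (3 + 0 * k)) (ctr_mul (Primrec.const (2 + 4 * k))
        (hq.comp Primrec.fst))) (ctr_sub (Primrec.const (k - 1)) Primrec.snd)
    have h2 : Primrec fun x : ℕ × ℕ =>
        List.replicate k 0 ++ [sT k 0 (Q0 + 2 * x.1) (k - 1 - x.2)] :=
      ctr_app (Primrec.const (List.replicate k 0)) (ctr_cons h1 (Primrec.const []))
    exact h2.to₂
  have h : Primrec fun n : ℕ => (sh k (Q0 + 2 * n) :: blk k 0 (Q0 + 2 * n)).take
      ((k + 1) * k - 1) := ctr_take (Primrec.const _) (ctr_cons hsh hblk)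
  refine h.of_eq fun n => ?_
  simp [D1, conf, cps]

theorem st_CTR (h : ST_CPR) : ST_CTR := by
  intro k Q0 q0 qh tab
  have hn : Primrec fun x : ℕ × ℕ => x.1 := Primrec.fst
  exact (ctr_trk (α := ℕ × ℕ) ((k + 1) * k) (k + 1) 0 (h k Q0 q0 qh tab)
    ((ctr_nA k Q0).comp hn) ((ctr_sT k Q0 0 0).comp hn) ((ctr_D1 k Q0).comp hn)
    Primrec.snd).to₂

end PCP4
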