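import Pool.Agent.Helper48.PCP.CTR

/-!
# PCP(4), module CUN: the word `U` is primitive recursive
-/

namespace PCP4

theorem cun_mN (k Q0 : ℕ) : Primrec fun n => mN k Q0 n := by
  unfold mN
  exact ctr_mul (Primrec.const _) (ctr_nu (ctr_nA k Q0))

theorem cun_LN (k Q0 : ℕ) : Primrec fun n => LN k Q0 n := by
  unfold LN
  exact ctr_add (Primrec.const 1) (ctr_mul (ctr_sub (cun_mN k Q0) (Primrec.const 1))
    (Primrec.const (k + 1)))

theorem st_CUN (h : ST_CTR) : ST_CUN := by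
  intro k Q0 q0 qh tab
  have hm2 : Primrec fun x : ℕ × ℕ => mN k Q0 x.1 := (cun_mN k Q0).comp Primrec.fst
  have ht : Primrec fun x : ℕ × ℕ => trN k Q0 q0 qh tab x.1 (x.2 % mN k Q0 x.1) :=
    (h k Q0 q0 qh tab).comp Primrec.fst (ctr_mod Primrec.snd hm2)
  have h1 : Primrec fun x : ℕ × ℕ =>
      (trN k Q0 q0 qh tab x.1 (x.2 % mN k Q0 x.1)).getD (x.2 / mN k Q0 x.1) false :=
    (Primrec.list_getD false).comp ht (ctr_div Primrec.snd hm2)
  exact Primrec.list_map (Primrec.list_range.comp (ctr_mul (cun_mN k Q0) (cun_LN k Q0))) h1.to₂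

end PCP4
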